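import Pool.Agent.Helper92.RECT.Goals4

/-!
# Paths of the recursion for reachability
-/

namespace Pool.Agent.Helper32.RECT

open Pool.Agent.Helper92.RECT Pool.Agent.Helper65.LinSpace
open Pool.Agent.Helper28.Sus (rc rc_zero rc_succ)

theorem pth : PTH_stmt := by
  intro E Z k
  induction k with
  | zero =>
    intro v v' h
    rw [rc_zero] at h
    by_cases hv : v = v'
    · exact ⟨0, fun _ => v, by norm_num, rfl, hv, fun i h1 h2 => by omega,
        fun i hi => by omega⟩
    · refine ⟨1, fun i => if i = 0 then v else v', le_rfl, rfl, rfl, fun i h1 h2 => by omega,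
        ?_⟩
      intro i hi
      have h0 : i = 0 := by omega
      subst h0
      show E v v' ≠ 0
      rw [eq01_ne hv] at h
      exact h
  | succ k ih =>
    intro v v' h
    rw [rc_succ] at h
    obtain ⟨m, hm, h1, h2⟩ := h
    obtain ⟨K, V, a1, a2, a3, a4, a5⟩ := ih v m h1
    obtain ⟨K', V', b1, b2, b3, b4, b5⟩ := ih m v' h2
    refine ⟨K + K', fun i => if i ≤ K then V i else V' (i - K), ?_, ?_, ?_, ?_, ?_⟩
    · rw [pow_succ]
      omega
    · show (if 0 ≤ K then V 0 else V' (0 - K)) = v
      rw [if_pos (Nat.zero_le K), a2]
    · show (if K + K' ≤ K then V (K + K') else V' (K + K' - K)) = v'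
      by_cases h0 : K' = 0
      · subst h0
        rw [if_pos (by omega), Nat.add_zero, a3, ← b2, b3]
      · rw [if_neg (by omega), Nat.add_sub_cancel_left, b3]
    · intro i hi0 hi
      show (if i ≤ K then V i else V' (i - K)) < Z
      rcases lt_trichotomy i K with h3 | h3 | h3
      · rw [if_pos h3.le]
        exact a4 i hi0 h3
      · subst h3
        rw [if_pos le_rfl, a3]
        exact hm
      · rw [if_neg (by omega)]
        exact b4 _ (by omega) (by omega)
    · intro i hi
      show E (if i ≤ K then V i else V' (i - K))
        (if i + 1 ≤ K then V (i + 1) else V' (i + 1 - K)) ≠ 0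
      rcases lt_trichotomy i K with h3 | h3 | h3
      · rw [if_pos h3.le, if_pos (by omega)]
        exact a5 i h3
      · subst h3
        rw [if_pos le_rfl, if_neg (by omega), a3, ← b2]
        have h4 : i + 1 - i = 0 + 1 := by omega
        rw [h4]
        exact b5 0 (by omega)
      · rw [if_neg (by omega), if_neg (by omega)]
        have h4 : i + 1 - K = i - K + 1 := by omega
        rw [h4]
        exact b5 _ (by omega)

end Pool.Agent.Helper32.RECT
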